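import Pool.Agent.K3h59.LD.Fibre

set_option autoImplicit false

/-!
# Compositions of integer polynomials
-/

namespace Pool.Agent.K3h59.LD

open Polynomial ComplexConjugate

theorem exists_index {α : Type*} (s : Multiset α) :
    ∃ f : Fin s.card → α, s = Finset.univ.val.map f := by
  induction s using Quotient.inductionOn with
  | h l =>
    refine ⟨fun i => l.get (Fin.cast (by simp) i), ?_⟩
    rw [Fin.univ_val_map]
    change (l : Multiset α) = _
    congr 1
    apply List.ext_get
    · simp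
    · intro i h1 h2
      simp

/-- the complex polynomial -/
noncomputable def cx (f : ℤ[X]) : ℂ[X] := f.map (Int.castRingHom ℂ)

theorem exists_roots (g : ℤ[X]) (hg : g.Monic) : ∃ β : Fin g.natDegree → ℂ,
    cx g = ∏ j, (X - C (β j)) := by
  have hgm : (cx g).Monic := hg.map _
  have h1 : cx g = ((cx g).roots.map fun a => X - C a).prod :=
    (IsAlgClosed.splits (cx g)).eq_prod_roots_of_monic hgm
  have hcard : (cx g).roots.card = g.natDegree := by
    rw [IsAlgClosed.card_roots_eq_natDegree, cx, hg.natDegree_map]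
  obtain ⟨f, hf⟩ := exists_index (cx g).roots
  rw [← hcard]
  refine ⟨f, ?_⟩
  conv_lhs => rw [h1, hf]
  rw [Multiset.map_map]
  rfl

variable {g h : ℤ[X]}

theorem eval_prod {m : ℕ} (β : Fin m → ℂ) (hβ : cx g = ∏ j, (X - C (β j))) (z : ℂ) :
    (cx g).eval z = ∏ j, (z - β j) := by
  rw [hβ, Polynomial.eval_prod]
  simp

theorem one_le_prod_const (hg : g.Monic) (hr : ∀ q : ℚ, aeval q g ≠ 0) (c : ℤ)
    (β : Fin g.natDegree → ℂ) (hβ : cx g = ∏ j, (X - C (β j))) :
    1 ≤ ∏ j, ‖(c : ℂ) - β j‖ := by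
  have h1 : (cx g).eval (c : ℂ) = ((g.eval c : ℤ) : ℂ) := by
    rw [cx, eval_map]
    have := Polynomial.eval₂_at_intCast (p := g) (Int.castRingHom ℂ) c
    simpa using this
  rw [← norm_prod, ← LD.eval_prod β hβ, h1, Complex.norm_intCast]
  have h2 : g.eval c ≠ 0 := by
    intro h3
    apply hr c
    have : aeval ((c : ℤ) : ℚ) g = ((g.eval c : ℤ) : ℚ) := by
      rw [aeval_def]
      have := Polynomial.eval₂_at_intCast (p := g) (algebraMap ℤ ℚ) c
      simpa using this
    rw [this, h3, Int.cast_zero]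
  have := Int.one_le_abs h2
  exact_mod_cast this

theorem one_le_prod_lin (hg : g.Monic) (hr : ∀ q : ℚ, aeval q g ≠ 0) (A B : ℤ)
    (hAB : B = 0 → A ≠ 0) (β : Fin g.natDegree → ℂ) (hβ : cx g = ∏ j, (X - C (β j))) :
    1 ≤ ∏ j, ‖(A : ℂ) + β j * B‖ := by
  by_cases hB : B = 0
  · subst hB
    simp only [Int.cast_zero, mul_zero, add_zero, Complex.norm_intCast]
    have h1 : (1 : ℝ) ≤ |(A : ℝ)| := by
      have := Int.one_le_abs (hAB rfl)
      exact_mod_cast this
    rw [Finset.prod_const]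
    exact one_le_pow₀ h1
  · have hBC : (B : ℂ) ≠ 0 := by exact_mod_cast hB
    set N : ℤ := (scaleRoots g B).eval (-A) with hN
    have h1 : ((N : ℤ) : ℂ) = (B : ℂ) ^ g.natDegree * (cx g).eval (-A / B : ℂ) := by
      have h2 := Polynomial.scaleRoots_eval₂_mul (p := g) (Int.castRingHom ℂ) (r := (-A / B : ℂ)) (s := B)
      have h3 : (Int.castRingHom ℂ) B * (-A / B : ℂ) = ((-A : ℤ) : ℂ) := by
        simp only [eq_intCast, Int.cast_neg]
        field_simp
      rw [h3] at h2
      have h4 := Polynomial.eval₂_at_intCast (p := scaleRoots g B) (Int.castRingHom ℂ) (-A)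
      rw [cx, eval_map]
      rw [h4] at h2
      simpa using h2
    have h5 : ‖(B : ℂ) ^ g.natDegree * (cx g).eval (-A / B : ℂ)‖ =
        ∏ j, ‖(A : ℂ) + β j * B‖ := by
      rw [LD.eval_prod β hβ, norm_mul, norm_pow, norm_prod]
      have h6 : ‖(B : ℂ)‖ ^ g.natDegree = ∏ _j : Fin g.natDegree, ‖(B : ℂ)‖ := by
        rw [Finset.prod_const, Finset.card_univ, Fintype.card_fin]
      rw [h6, ← Finset.prod_mul_distrib]
      refine Finset.prod_congr rfl fun j _ => ?_
      rw [← norm_mul, ← norm_neg]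
      congr 1
      field_simp
      ring
    rw [← h5, ← h1, Complex.norm_intCast]
    have h7 : N ≠ 0 := by
      intro h8
      rw [h8, Int.cast_zero] at h1
      have h9 : (cx g).eval (-A / B : ℂ) = 0 := by
        rcases mul_eq_zero.1 h1.symm with h | h
        · exact absurd h (pow_ne_zero _ hBC)
        · exact h
      apply hr (-A / B : ℚ)
      have h10 : ((aeval (-A / B : ℚ) g : ℚ) : ℂ) = (cx g).eval (-A / B : ℂ) := by
        rw [cx, eval_map, aeval_def]
        have := Polynomial.hom_eval₂ g (algebraMap ℤ ℚ) (algebraMap ℚ ℂ) (-A / B : ℚ)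
        rw [eq_ratCast] at this
        rw [this]
        congr 1
        simp
      rw [h9] at h10
      exact_mod_cast h10
    have := Int.one_le_abs h7
    exact_mod_cast this

/-- the inequality for compositions -/
theorem comp_bound (hg : g.Monic) (hh : h.Monic) (hr : ∀ q : ℚ, aeval q g ≠ 0) (i : ℕ)
    (hi : 1 ≤ i) (hid : i < h.natDegree) (hne : h.coeff i ≠ 0) :
    Real.goldenRatio ^ g.natDegree ≤ (cx (g.comp h)).mahlerMeasure ^ 2 := by
  classical
  have hex : ∃ k, 1 ≤ k ∧ (h.coeff k ≠ 0 ∨ h.coeff (h.natDegree - k) ≠ 0) :=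
    ⟨i, hi, Or.inl hne⟩
  obtain ⟨k, ⟨hk1, hk2⟩, hk3⟩ : ∃ k, (1 ≤ k ∧ (h.coeff k ≠ 0 ∨ h.coeff (h.natDegree - k) ≠ 0)) ∧
      ∀ j < k, ¬ (1 ≤ j ∧ (h.coeff j ≠ 0 ∨ h.coeff (h.natDegree - j) ≠ 0)) :=
    ⟨Nat.find hex, Nat.find_spec hex, fun j hj => Nat.find_min hex hj⟩
  have hki : k ≤ i := by
    by_contra hcon
    exact hk3 i (by omega) ⟨hi, Or.inl hne⟩
  have hkd : k < h.natDegree := by omega
  obtain ⟨β, hβ⟩ := exists_roots g hg
  set P : Fin g.natDegree → ℂ[X] := fun j => cx h - C (β j) with hP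
  have hhc : (cx h).Monic := hh.map _
  have hdh : (cx h).natDegree = h.natDegree := hh.natDegree_map _
  have hdeg : ∀ j, (P j).natDegree = h.natDegree := by
    intro j
    rw [hP]
    simp only
    rw [natDegree_sub_C, hdh]
  have hmon : ∀ j, (P j).Monic := by
    intro j
    apply hhc.sub_of_left
    refine (degree_C_le).trans_lt ?_
    rw [← natDegree_pos_iff_degree_pos, hdh]
    omega
  have hcoef : ∀ j n, 1 ≤ n → (P j).coeff n = (h.coeff n : ℂ) := by
    intro j n hn
    rw [hP]
    simp only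
    rw [coeff_sub, coeff_C, if_neg (by omega), sub_zero, cx, coeff_map, eq_intCast]
  have hcoef0 : ∀ j, (P j).coeff 0 = (h.coeff 0 : ℂ) - β j := by
    intro j
    rw [hP]
    simp only
    rw [coeff_sub, coeff_C_zero, cx, coeff_map, eq_intCast]
  have hr' : ∀ j n, 1 ≤ n → n ≤ k → (P j).coeff n -
      (P j).coeff 0 * conj ((P j).coeff ((P j).natDegree - n)) =
      ((h.coeff n - h.coeff 0 * h.coeff (h.natDegree - n) : ℤ) : ℂ) +
        β j * (h.coeff (h.natDegree - n) : ℤ) := by
    intro j n hn hnk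
    rw [hdeg, hcoef j n hn, hcoef j (h.natDegree - n) (by omega), hcoef0 j]
    have : conj ((h.coeff (h.natDegree - n) : ℤ) : ℂ) = ((h.coeff (h.natDegree - n) : ℤ) : ℂ) :=
      map_intCast (starRingEnd ℂ) _
    rw [this]
    push_cast
    ring
  have hM : (cx (g.comp h)).mahlerMeasure = ∏ j, (P j).mahlerMeasure := by
    have h1 : cx (g.comp h) = ∏ j, P j := by
      rw [cx, Polynomial.map_comp]
      change (cx g).comp (cx h) = _
      rw [hβ, Polynomial.prod_comp]
      refine Finset.prod_congr rfl fun j _ => ?_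
      rw [sub_comp, X_comp, C_comp]
    have h2 := Polynomial.prod_mahlerMeasure_eq_mahlerMeasure_prod (Finset.univ.val.map P)
    rw [h1]
    refine Eq.trans ?_ (Eq.trans h2 ?_)
    · rfl
    · rw [Multiset.map_map]
      rfl
  have hnz : ∀ z : ℂ, z ∈ Set.range β → (cx g).eval z = 0 := by
    rintro _ ⟨j, rfl⟩
    rw [LD.eval_prod β hβ]
    exact Finset.prod_eq_zero (Finset.mem_univ j) (sub_self _)
  have hcase : h.coeff (h.natDegree - k) = 0 →
      h.coeff k - h.coeff 0 * h.coeff (h.natDegree - k) ≠ 0 := by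
    intro h0
    rw [h0, mul_zero, sub_zero]
    rcases hk2 with h | h
    · exact h
    · exact absurd h0 h
  have hprod1 := one_le_prod_lin hg hr (h.coeff k - h.coeff 0 * h.coeff (h.natDegree - k))
    (h.coeff (h.natDegree - k)) hcase β hβ
  have hprod0 := one_le_prod_const hg hr (h.coeff 0) β hβ
  have hpos : ∀ (f : Fin g.natDegree → ℂ), 1 ≤ ∏ j, ‖f j‖ → ∀ j, f j ≠ 0 := by
    intro f hf j hj
    rw [Finset.prod_eq_zero (Finset.mem_univ j) (by rw [hj, norm_zero])] at hf
    linarith
  have h3 := family (Finset.univ : Finset (Fin g.natDegree)) P (fun j _ => hmon j)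
    (fun j _ => by rw [hcoef0]; exact hpos _ hprod0 j) k (fun j _ => by rw [hdeg]; omega)
    (fun j _ n hn hnk => by
      have h4 := hr' j n hn hnk.le
      have h5 : h.coeff n = 0 ∧ h.coeff (h.natDegree - n) = 0 := by
        have := hk3 n hnk
        push Not at this
        have h6 := this hn
        tauto
      rw [h5.1, h5.2, mul_zero, sub_zero, Int.cast_zero, mul_zero, add_zero] at h4
      exact sub_eq_zero.1 h4)
    (fun j _ => by
      have h4 := hr' j k hk1 le_rfl
      have h5 := hpos _ hprod1 j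
      rw [← h4] at h5
      exact sub_ne_zero.1 h5)
    (by
      refine hprod1.trans (le_of_eq (Finset.prod_congr rfl fun j _ => ?_))
      rw [hr' j k hk1 le_rfl])
    (by
      refine hprod0.trans (le_of_eq (Finset.prod_congr rfl fun j _ => ?_))
      rw [hcoef0])
  rw [Finset.card_univ, Fintype.card_fin, ← hM] at h3
  exact h3

end Pool.Agent.K3h59.LD
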