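import Pool.Agent.K3h59.LD.Comp

set_option autoImplicit false

/-!
# Decomposable polynomials
-/

namespace Pool.Agent.K3h59.LD

open Polynomial

/-- the rational polynomial -/
noncomputable def qx (f : ℤ[X]) : ℚ[X] := f.map (Int.castRingHom ℚ)

theorem int_of_integral (q : ℚ) (h : IsIntegral ℤ ((q : ℚ) : ℂ)) :
    q ∈ Set.range (Int.castRingHom ℚ) := by
  have h1 : IsIntegral ℤ q := by
    have : IsIntegral ℤ (algebraMap ℚ ℂ q) := by
      rwa [eq_ratCast]
    exact (isIntegral_algebraMap_iff (algebraMap ℚ ℂ).injective).1 this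
  obtain ⟨n, hn⟩ := IsIntegrallyClosed.isIntegral_iff.1 h1
  exact ⟨n, by rw [← hn]; simp⟩

theorem integral_coeff_prod (s : Multiset ℂ) (hs : ∀ a ∈ s, IsIntegral ℤ a) :
    ∀ i, IsIntegral ℤ ((s.map fun a => (X - C a : ℂ[X])).prod.coeff i) := by
  induction s using Multiset.induction_on with
  | empty =>
    intro i
    rw [Multiset.map_zero, Multiset.prod_zero, coeff_one]
    split_ifs
    · exact isIntegral_one
    · exact isIntegral_zero
  | cons a s ih =>
    intro i
    have ih' := ih fun b hb => hs b (Multiset.mem_cons_of_mem hb)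
    rw [Multiset.map_cons, Multiset.prod_cons, sub_mul, coeff_sub, coeff_C_mul]
    refine IsIntegral.sub ?_ ((hs a (Multiset.mem_cons_self a s)).mul (ih' i))
    cases i with
    | zero => rw [mul_coeff_zero, coeff_X_zero, zero_mul]; exact isIntegral_zero
    | succ i => rw [coeff_X_mul]; exact ih' i

/-- a decomposition over `ℚ` of a monic integer polynomial comes from one over `ℤ` -/
theorem integral_decomp (f : ℤ[X]) (hf : f.Monic) (g h : ℚ[X]) (hg : 1 ≤ g.natDegree)
    (hh : 1 ≤ h.natDegree) (hc : qx f = g.comp h) :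
    ∃ G H : ℤ[X], G.Monic ∧ H.Monic ∧ H.coeff 0 = 0 ∧ G.natDegree = g.natDegree ∧
      H.natDegree = h.natDegree ∧ f = G.comp H ∧
        h = C h.leadingCoeff * qx H + C (h.coeff 0) ∧
          qx G = g.comp (C h.leadingCoeff * X + C (h.coeff 0)) := by
  set a := h.leadingCoeff with ha
  set c := h.coeff 0 with hcdef
  have hh0 : h ≠ 0 := by
    rintro rfl
    simp at hh
  have ha0 : a ≠ 0 := leadingCoeff_ne_zero.2 hh0
  set H0 : ℚ[X] := C a⁻¹ * (h - C c) with hH0
  set G0 : ℚ[X] := g.comp (C a * X + C c) with hG0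
  have e1 : C a * H0 + C c = h := by
    rw [hH0, ← mul_assoc, ← C_mul, mul_inv_cancel₀ ha0, C_1, one_mul, sub_add_cancel]
  have dH : H0.natDegree = h.natDegree := by
    rw [hH0, natDegree_C_mul (inv_ne_zero ha0), natDegree_sub_C]
  have mH : H0.Monic := by
    rw [Monic, leadingCoeff, dH, hH0, coeff_C_mul, coeff_sub, coeff_C, if_neg (by omega), sub_zero]
    exact inv_mul_cancel₀ ha0
  have cH : H0.coeff 0 = 0 := by
    rw [hH0, coeff_C_mul, coeff_sub, coeff_C_zero, ← hcdef, sub_self, mul_zero]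
  have dG : G0.natDegree = g.natDegree := by
    rw [hG0, natDegree_comp, natDegree_linear ha0, mul_one]
  have e2 : qx f = G0.comp H0 := by
    rw [hc, hG0, comp_assoc, add_comp, mul_comp, C_comp, X_comp, C_comp, e1]
  have mf : (qx f).Monic := hf.map _
  have mG : G0.Monic := by
    have h1 := leadingCoeff_comp (p := G0) (q := H0) (by omega)
    rw [← e2, mf.leadingCoeff, mH.leadingCoeff, one_pow, mul_one] at h1
    exact h1.symm
  set GC : ℂ[X] := G0.map (algebraMap ℚ ℂ) with hGC
  set HC : ℂ[X] := H0.map (algebraMap ℚ ℂ) with hHC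
  have e3 : cx f = GC.comp HC := by
    rw [hGC, hHC, ← Polynomial.map_comp, ← e2, qx, cx, Polynomial.map_map]
    congr 1
  have mGC : GC.Monic := mG.map _
  have mHC : HC.Monic := mH.map _
  have dHC : HC.natDegree = h.natDegree := by rw [hHC, mH.natDegree_map, dH]
  have key : ∀ β : ℂ, GC.IsRoot β → ∀ i, IsIntegral ℤ ((HC - C β).coeff i) := by
    intro β hβ i
    obtain ⟨q, hq⟩ := dvd_iff_isRoot.2 hβ
    have hdvd : HC - C β ∣ f.map (algebraMap ℤ ℂ) := by
      refine ⟨q.comp HC, ?_⟩
      have : f.map (algebraMap ℤ ℂ) = cx f := rfl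
      rw [this, e3, hq, mul_comp, sub_comp, X_comp, C_comp]
    have hm : (HC - C β).Monic := by
      apply mHC.sub_of_left
      refine (degree_C_le).trans_lt ?_
      rw [← natDegree_pos_iff_degree_pos, dHC]
      omega
    exact Polynomial.isIntegral_coeff_of_dvd f _ hf hm hdvd i
  have hGroot : ∃ β : ℂ, GC.IsRoot β := by
    apply IsAlgClosed.exists_root
    rw [degree_eq_natDegree mGC.ne_zero, hGC, mG.natDegree_map, dG]
    exact_mod_cast (by omega : g.natDegree ≠ 0)
  obtain ⟨β, hβ⟩ := hGroot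
  have hHint : ∀ n, H0.coeff n ∈ Set.range (Int.castRingHom ℚ) := by
    intro n
    cases n with
    | zero => exact ⟨0, by rw [cH]; simp⟩
    | succ n =>
      apply int_of_integral
      have h1 := key β hβ (n + 1)
      rw [coeff_sub, coeff_C, if_neg (by omega), sub_zero, hHC, coeff_map, eq_ratCast] at h1
      exact h1
  have hGint : ∀ n, G0.coeff n ∈ Set.range (Int.castRingHom ℚ) := by
    intro n
    apply int_of_integral
    have h1 : GC = (GC.roots.map fun a => (X - C a : ℂ[X])).prod :=
      (IsAlgClosed.splits GC).eq_prod_roots_of_monic mGC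
    have h2 := integral_coeff_prod GC.roots (fun b hb => by
      have h3 := key b (isRoot_of_mem_roots hb) 0
      have h4 : HC.coeff 0 = 0 := by rw [hHC, coeff_map, cH, map_zero]
      rw [coeff_sub, coeff_C_zero, h4, zero_sub] at h3
      simpa using h3.neg) n
    rw [← h1, hGC, coeff_map, eq_ratCast] at h2
    exact h2
  obtain ⟨G, hG⟩ := (mem_lifts G0).1 ((lifts_iff_coeff_lifts G0).2 hGint)
  obtain ⟨H, hH⟩ := (mem_lifts H0).1 ((lifts_iff_coeff_lifts H0).2 hHint)
  have hinj : Function.Injective (Int.castRingHom ℚ) := Int.cast_injective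
  refine ⟨G, H, ?_, ?_, ?_, ?_, ?_, ?_, ?_, hG⟩
  · rw [← hG] at mG
    exact monic_of_injective hinj mG
  · rw [← hH] at mH
    exact monic_of_injective hinj mH
  · rw [← hH, coeff_map] at cH
    exact (map_eq_zero_iff _ hinj).1 cH
  · rw [← dG, ← hG, natDegree_map_eq_of_injective hinj]
  · rw [← dH, ← hH, natDegree_map_eq_of_injective hinj]
  · apply map_injective _ hinj
    rw [Polynomial.map_comp, hG, hH]
    exact e2
  · rw [qx, hH, e1]

/-- a monic irreducible polynomial `G (H (X))` with `deg G ≥ 2`: `G` has no rational zero -/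
theorem no_root (f : ℤ[X]) (hf : Irreducible f) (hfm : f.Monic) (G H : ℤ[X]) (hH : H.Monic)
    (hG : 2 ≤ G.natDegree) (hH1 : 1 ≤ H.natDegree) (hc : f = G.comp H) (q : ℚ) :
    aeval q G ≠ 0 := by
  intro h0
  have hir : Irreducible (qx f) := (hfm.irreducible_iff_irreducible_map_fraction_map (K := ℚ)).1 hf
  have h1 : (qx G).IsRoot q := by
    rw [IsRoot, qx, eval_map]
    exact h0
  obtain ⟨Q, hQ⟩ := dvd_iff_isRoot.2 h1
  have h2 : qx f = (qx H - C q) * Q.comp (qx H) := by
    have : qx f = (qx G).comp (qx H) := by rw [hc, qx, Polynomial.map_comp]; rfl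
    rw [this, hQ, mul_comp, sub_comp, X_comp, C_comp]
  have dH : (qx H - C q).natDegree = H.natDegree := by
    rw [natDegree_sub_C, qx, hH.natDegree_map]
  have hQ1 : Q.natDegree = G.natDegree - 1 := by
    have h3 : (qx G).natDegree = G.natDegree :=
      natDegree_map_eq_of_injective Int.cast_injective _
    have hQ0 : Q ≠ 0 := by
      rintro rfl
      rw [mul_zero] at hQ
      rw [hQ, natDegree_zero] at h3
      omega
    rw [← h3, hQ, natDegree_mul (X_sub_C_ne_zero q) hQ0, natDegree_X_sub_C]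
    omega
  rcases hir.isUnit_or_isUnit h2 with h | h
  · have := natDegree_eq_zero_of_isUnit h
    omega
  · have h3 := natDegree_eq_zero_of_isUnit h
    rw [natDegree_comp, hQ1] at h3
    have h4 : (qx H).natDegree = H.natDegree := hH.natDegree_map _
    rw [h4] at h3
    rcases Nat.mul_eq_zero.1 h3 with h5 | h5
    · omega
    · omega

theorem decomp_bound (f : ℤ[X]) (hfm : f.Monic) (g h : ℚ[X]) (hh : 1 ≤ h.natDegree)
    (hc : qx f = g.comp h) (hr : (∀ q : ℚ, g.eval q ≠ 0) ∨ (Irreducible f ∧ 2 ≤ g.natDegree)) :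
    h = C h.leadingCoeff * X ^ h.natDegree + C (h.coeff 0) ∨
      Real.goldenRatio ^ g.natDegree ≤ (cx f).mahlerMeasure ^ 2 := by
  rcases Nat.eq_zero_or_pos g.natDegree with hg0 | hg0
  · right
    rw [hg0, pow_zero]
    have := one_le_mahlerMeasure_of_ne_zero hfm.ne_zero
    exact one_le_pow₀ this
  obtain ⟨G, H, mG, mH, H0, dG, dH, hf2, hh2, hG⟩ := integral_decomp f hfm g h hg0 hh hc
  have hno : ∀ q : ℚ, aeval q G ≠ 0 := by
    rcases hr with hr | ⟨hf, hg⟩
    · intro q h0
      have h1 : (qx G).eval q = 0 := by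
        rw [qx, eval_map]
        exact h0
      rw [hG, eval_comp] at h1
      exact hr _ h1
    · exact no_root f hf hfm G H mH (by omega) (by omega) hf2
  by_cases hex : ∃ i, 1 ≤ i ∧ i < H.natDegree ∧ H.coeff i ≠ 0
  · obtain ⟨i, h1, h2, h3⟩ := hex
    right
    rw [← dG, hf2]
    exact comp_bound mG mH hno i h1 h2 h3
  · left
    have hHX : H = X ^ h.natDegree := by
      ext i
      rw [coeff_X_pow]
      rcases Nat.lt_trichotomy i H.natDegree with h1 | h1 | h1
      · rw [if_neg (by omega)]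
        rcases Nat.eq_zero_or_pos i with rfl | h2
        · exact H0
        · by_contra h3
          exact hex ⟨i, h2, h1, h3⟩
      · rw [if_pos (by omega), h1, coeff_natDegree, mH.leadingCoeff]
      · rw [if_neg (by omega), coeff_eq_zero_of_natDegree_lt h1]
    rw [hHX, qx, Polynomial.map_pow, map_X] at hh2
    exact hh2

end Pool.Agent.K3h59.LD
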