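import Pool.Agent.K3h59.LD.Golden

set_option autoImplicit false

/-!
# One fibre
-/

namespace Pool.Agent.K3h59.LD

open Polynomial ComplexConjugate Pool.Agent.R701.UG

theorem pl_roots {P : ℂ[X]} (hP : P.Monic) : P = pl P.roots :=
  (IsAlgClosed.splits P).eq_prod_roots_of_monic hP

theorem norm_pl_zero (R : Multiset ℂ) : ‖(pl R).coeff 0‖ = up R * lo R := by
  rw [up_mul_lo]
  induction R using Multiset.induction_on with
  | empty => simp [pl]
  | cons a R ih =>
    rw [pl] at ih ⊢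
    rw [Multiset.map_cons, Multiset.prod_cons, Polynomial.mul_coeff_zero, norm_mul, ih,
      Multiset.map_cons, Multiset.prod_cons]
    simp

theorem pr_eq (R : Multiset ℂ) : pr R = ((pl R).map (starRingEnd ℂ)).reverse := by
  rw [pl, Polynomial.map_multiset_prod, Multiset.map_map]
  have : (R.map ((fun p : ℂ[X] => p.map (starRingEnd ℂ)) ∘ fun a => (X - C a : ℂ[X]))) =
      ((R.map (starRingEnd ℂ)).map fun a => (X - C a : ℂ[X])) := by
    rw [Multiset.map_map]
    apply Multiset.map_congr rfl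
    intro a _
    simp
  rw [this, H338R2.reverse_prod, Multiset.map_map]
  rfl

theorem pr_coeff (P : ℂ[X]) (hP : P.Monic) (i : ℕ) (hi : i ≤ P.natDegree) :
    (pr P.roots).coeff i = conj (P.coeff (P.natDegree - i)) := by
  rw [pr_eq, ← pl_roots hP, Polynomial.coeff_reverse, Polynomial.natDegree_map,
    Polynomial.revAt_le hi, Polynomial.coeff_map]

theorem up_eq (P : ℂ[X]) (hP : P.Monic) : up P.roots = P.mahlerMeasure := by
  rw [Polynomial.mahlerMeasure_eq_leadingCoeff_mul_prod_roots, hP.leadingCoeff, norm_one, one_mul]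
  rfl

theorem lo_pos (R : Multiset ℂ) (h : ∀ a ∈ R, a ≠ 0) : 0 < lo R := by
  rw [lo]
  apply Multiset.prod_pos
  intro x hx
  obtain ⟨a, ha, rfl⟩ := Multiset.mem_map.1 hx
  exact lt_min one_pos (norm_pos_iff.2 (h a ha))

/-- the inequality for one complex polynomial -/
theorem fibre (P : ℂ[X]) (hP : P.Monic) (h0 : P.coeff 0 ≠ 0) (k : ℕ) (hk : k ≤ P.natDegree)
    (hlt : ∀ i, 1 ≤ i → i < k → P.coeff i = P.coeff 0 * conj (P.coeff (P.natDegree - i)))
    (hne : P.coeff k ≠ P.coeff 0 * conj (P.coeff (P.natDegree - k))) :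
    ‖P.coeff k - P.coeff 0 * conj (P.coeff (P.natDegree - k))‖ ≤
      P.mahlerMeasure ^ 2 - lo P.roots ^ 2 ∧ 0 < lo P.roots ∧
      P.mahlerMeasure * lo P.roots = ‖P.coeff 0‖ := by
  have hR0 : ∀ a ∈ P.roots, a ≠ 0 := by
    rintro a ha rfl
    have h1 := (Polynomial.mem_roots'.1 ha).2
    rw [Polynomial.IsRoot, ← Polynomial.coeff_zero_eq_eval_zero] at h1
    exact h0 h1
  have hw : ∀ i ≤ P.natDegree, (pl P.roots - C (P.coeff 0) * pr P.roots).coeff i =
      P.coeff i - P.coeff 0 * conj (P.coeff (P.natDegree - i)) := by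
    intro i hi
    rw [coeff_sub, coeff_C_mul, pr_coeff P hP i hi, ← pl_roots hP]
  have h1 := rel_ineq P.roots hR0 _ (P.coeff 0) rfl (by rw [← pl_roots hP]) k
    (by rw [hw k hk]; exact sub_ne_zero.2 hne) (fun i hi => by
      rw [hw i (by omega)]
      rcases Nat.eq_zero_or_pos i with rfl | hi0
      · rw [Nat.sub_zero, coeff_natDegree, hP.leadingCoeff, map_one, mul_one, sub_self]
      · rw [hlt i hi0 hi, sub_self])
  rw [hw k hk, up_eq P hP] at h1
  refine ⟨h1, lo_pos _ hR0, ?_⟩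
  rw [← up_eq P hP, ← norm_pl_zero, ← pl_roots hP]

theorem one_le_mm (P : ℂ[X]) (hP : P.Monic) : 1 ≤ P.mahlerMeasure := by
  rw [← up_eq P hP]
  exact one_le_up _

/-- the inequality for a finite family of complex polynomials -/
theorem family {ι : Type*} (s : Finset ι) (P : ι → ℂ[X]) (hP : ∀ j ∈ s, (P j).Monic)
    (h0 : ∀ j ∈ s, (P j).coeff 0 ≠ 0) (k : ℕ) (hk : ∀ j ∈ s, k ≤ (P j).natDegree)
    (hlt : ∀ j ∈ s, ∀ i, 1 ≤ i → i < k →
      (P j).coeff i = (P j).coeff 0 * conj ((P j).coeff ((P j).natDegree - i)))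
    (hne : ∀ j ∈ s, (P j).coeff k ≠ (P j).coeff 0 * conj ((P j).coeff ((P j).natDegree - k)))
    (h1 : 1 ≤ ∏ j ∈ s, ‖(P j).coeff k - (P j).coeff 0 * conj ((P j).coeff ((P j).natDegree - k))‖)
    (h2 : 1 ≤ ∏ j ∈ s, ‖(P j).coeff 0‖) :
    Real.goldenRatio ^ s.card ≤ (∏ j ∈ s, (P j).mahlerMeasure) ^ 2 := by
  have hf := fun j (hj : j ∈ s) =>
    fibre (P j) (hP j hj) (h0 j hj) k (hk j hj) (hlt j hj) (hne j hj)
  refine product_bound s (fun j => (P j).mahlerMeasure) (fun j => lo (P j).roots)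
    (fun j => ‖(P j).coeff k - (P j).coeff 0 * conj ((P j).coeff ((P j).natDegree - k))‖)
    (fun j hj => (hf j hj).2.1) (fun j hj => lt_of_lt_of_le one_pos (one_le_mm _ (hP j hj)))
    (fun j hj => norm_pos_iff.2 (sub_ne_zero.2 (hne j hj))) (fun j hj => (hf j hj).1) h1 ?_
  refine h2.trans (le_of_eq ?_)
  exact (Finset.prod_congr rfl fun j hj => (hf j hj).2.2).symm

end Pool.Agent.K3h59.LD
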