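import Pool.Agent.K3h59.LD.Fibre

set_option autoImplicit false

/-!
# Polynomials over the ring of integers of a number field
-/

namespace Pool.Agent.K3h59.LD

open Polynomial ComplexConjugate NumberField

theorem one_le_prod_embeddings {L : Type*} [Field L] [NumberField L] (a : 𝓞 L) (ha : a ≠ 0) :
    1 ≤ ∏ σ : L →+* ℂ, ‖σ a‖ := by
  have h1 := Algebra.norm_eq_prod_embeddings ℚ ℂ (a : L)
  obtain ⟨n, hn⟩ := IsIntegrallyClosed.isIntegral_iff.1 (Algebra.isIntegral_norm ℚ a.isIntegral_coe)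
  have ha' : (a : L) ≠ 0 := fun h => ha (RingOfIntegers.coe_eq_zero_iff.1 h)
  have hn0 : n ≠ 0 := by
    rintro rfl
    rw [map_zero] at hn
    exact ha' (Algebra.norm_eq_zero_iff.1 hn.symm)
  have h2 : ∏ σ : L →+* ℂ, ‖σ a‖ = ∏ σ : L →ₐ[ℚ] ℂ, ‖σ a‖ :=
    Fintype.prod_equiv (RingHom.equivRatAlgHom L ℂ) _ _ fun σ => rfl
  rw [h2, ← norm_prod, ← h1, ← hn]
  have h4 : algebraMap ℚ ℂ (algebraMap ℤ ℚ n) = (n : ℂ) := by simp
  rw [h4, Complex.norm_intCast]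
  have := Int.one_le_abs hn0
  exact_mod_cast this

/-- the embedding of the ring of integers in `ℂ` given by `σ` -/
noncomputable def emb {L : Type*} [Field L] (σ : L →+* ℂ) : 𝓞 L →+* ℂ :=
  σ.comp (algebraMap (𝓞 L) L)

theorem emb_inj {L : Type*} [Field L] (σ : L →+* ℂ) : Function.Injective (emb σ) :=
  σ.injective.comp RingOfIntegers.coe_injective

theorem field_bound {L : Type*} [Field L] [NumberField L] (P : (𝓞 L)[X]) (hP : P.Monic)
    (h0 : P.coeff 0 ≠ 0) (s : ℕ) (b : ℕ → 𝓞 L) (hs : 1 ≤ s) (hsd : s ≤ P.natDegree)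
    (hb : ∀ i, 1 ≤ i → i ≤ s → ∀ σ : L →+* ℂ,
      conj (emb σ (P.coeff (P.natDegree - i))) = emb σ (b i))
    (hne : P.coeff s ≠ P.coeff 0 * b s) :
    Real.goldenRatio ^ Module.finrank ℚ L ≤ (∏ σ : L →+* ℂ, (P.map (emb σ)).mahlerMeasure) ^ 2 := by
  classical
  have hex : ∃ k, 1 ≤ k ∧ P.coeff k ≠ P.coeff 0 * b k := ⟨s, hs, hne⟩
  obtain ⟨k, ⟨hk1, hk2⟩, hk3⟩ : ∃ k, (1 ≤ k ∧ P.coeff k ≠ P.coeff 0 * b k) ∧
      ∀ i < k, ¬ (1 ≤ i ∧ P.coeff i ≠ P.coeff 0 * b i) :=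
    ⟨Nat.find hex, Nat.find_spec hex, fun i hi => Nat.find_min hex hi⟩
  have hks : k ≤ s := by
    by_contra hcon
    exact hk3 s (by omega) ⟨hs, hne⟩
  have hdeg : ∀ σ : L →+* ℂ, (P.map (emb σ)).natDegree = P.natDegree := fun σ =>
    hP.natDegree_map _
  have hc : ∀ (σ : L →+* ℂ) (i : ℕ), 1 ≤ i → i ≤ k →
      (P.map (emb σ)).coeff 0 * conj ((P.map (emb σ)).coeff ((P.map (emb σ)).natDegree - i)) =
        emb σ (P.coeff 0 * b i) := by
    intro σ i hi hik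
    rw [hdeg, coeff_map, coeff_map, hb i hi (hik.trans hks) σ, map_mul]
  rw [← Embeddings.card L ℂ, ← Finset.card_univ]
  refine family Finset.univ (fun σ => P.map (emb σ)) (fun σ _ => hP.map _) (fun σ _ => ?_) k
    (fun σ _ => ?_) (fun σ _ i hi hik => ?_) (fun σ _ => ?_) ?_ ?_
  · rw [coeff_map]
    exact fun h => h0 ((map_eq_zero_iff _ (emb_inj σ)).1 h)
  · rw [hdeg]
    omega
  · rw [hc σ i hi hik.le, coeff_map]
    congr 1
    by_contra hcon
    exact hk3 i hik ⟨hi, hcon⟩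
  · rw [hc σ k hk1 le_rfl, coeff_map]
    exact fun h => hk2 (emb_inj σ h)
  · have h1 := one_le_prod_embeddings (P.coeff k - P.coeff 0 * b k) (sub_ne_zero.2 hk2)
    refine h1.trans (le_of_eq (Finset.prod_congr rfl fun σ _ => ?_))
    rw [hc σ k hk1 le_rfl, coeff_map, ← map_sub]
    rfl
  · have h1 := one_le_prod_embeddings (P.coeff 0) h0
    refine h1.trans (le_of_eq (Finset.prod_congr rfl fun σ _ => ?_))
    rw [coeff_map]
    rfl

end Pool.Agent.K3h59.LD
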