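import Mathlib
import Pool.Agent.R701.UG.Rel

set_option autoImplicit false

/-!
# The product inequality
-/

namespace Pool.Agent.K3h59.LD

open Finset Real

theorem sqrt_five : √5 = 2 * goldenRatio - 1 := by
  rw [goldenRatio]
  ring

theorem golden_ineq (x y : ℝ) (hy : 0 < y) (hxy : y < x) :
    √5 * log goldenRatio + log (x - y) + (goldenRatio - 1) * log (x * y) ≤ √5 * log x := by
  have hx : 0 < x := hy.trans hxy
  have hφ : 0 < goldenRatio := goldenRatio_pos
  have hφ1 : 1 < goldenRatio := one_lt_goldenRatio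
  have hsq : goldenRatio ^ 2 = goldenRatio + 1 := goldenRatio_sq
  set ρ := y / x with hρ
  have hρ0 : 0 < ρ := div_pos hy hx
  have hρ1 : ρ < 1 := (div_lt_one hx).2 hxy
  have e1 : x - y = x * (1 - ρ) := by rw [hρ]; field_simp
  have e2 : x * y = x * x * ρ := by rw [hρ]; field_simp
  rw [e1, e2, log_mul hx.ne' (by linarith), log_mul (by positivity) hρ0.ne', log_mul hx.ne' hx.ne']
  have h1 := log_le_sub_one_of_pos (show 0 < (1 - ρ) * goldenRatio by
    have : 0 < 1 - ρ := by linarith
    positivity)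
  have h2 := log_le_sub_one_of_pos (show 0 < ρ * goldenRatio ^ 2 by positivity)
  rw [log_mul (by linarith) hφ.ne'] at h1
  rw [log_mul hρ0.ne' (by positivity), log_pow] at h2
  have h3 : (goldenRatio - 1) * (log ρ + 2 * log goldenRatio) ≤
      (goldenRatio - 1) * (ρ * goldenRatio ^ 2 - 1) := by
    apply mul_le_mul_of_nonneg_left _ (by linarith)
    push_cast at h2
    exact h2
  have h4 : (goldenRatio - 1) * (ρ * goldenRatio ^ 2 - 1) =
      ρ * goldenRatio - (goldenRatio - 1) := by
    have : (goldenRatio - 1) * goldenRatio ^ 2 = goldenRatio := by nlinarith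
    linear_combination ρ * this
  rw [h4] at h3
  rw [sqrt_five]
  nlinarith

theorem product_bound {ι : Type*} (s : Finset ι) (M l r : ι → ℝ) (hl : ∀ i ∈ s, 0 < l i)
    (hM : ∀ i ∈ s, 0 < M i) (hr : ∀ i ∈ s, 0 < r i) (h : ∀ i ∈ s, r i ≤ M i ^ 2 - l i ^ 2)
    (h1 : 1 ≤ ∏ i ∈ s, r i) (h2 : 1 ≤ ∏ i ∈ s, (M i * l i)) :
    goldenRatio ^ s.card ≤ (∏ i ∈ s, M i) ^ 2 := by
  have key : ∀ i ∈ s, √5 * log goldenRatio + log (r i) +
      (goldenRatio - 1) * (2 * log (M i * l i)) ≤ √5 * (2 * log (M i)) := by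
    intro i hi
    have a1 := hl i hi
    have a2 := hM i hi
    have a3 := hr i hi
    have a4 := h i hi
    have h3 := golden_ineq (M i ^ 2) (l i ^ 2) (by positivity) (by linarith)
    have h4 : log (r i) ≤ log (M i ^ 2 - l i ^ 2) := log_le_log a3 a4
    rw [← mul_pow, log_pow, log_pow] at h3
    push_cast at h3
    linarith
  have h3 := sum_le_sum key
  rw [sum_add_distrib, sum_add_distrib, sum_const, ← mul_sum, ← mul_sum, ← mul_sum, ← mul_sum,
    nsmul_eq_mul, ← log_prod (fun i hi => (hr i hi).ne'),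
    ← log_prod (fun i hi => (mul_pos (hM i hi) (hl i hi)).ne'),
    ← log_prod (fun i hi => (hM i hi).ne')] at h3
  have h4 := log_nonneg h1
  have h5 := log_nonneg h2
  have h6 : 0 ≤ (goldenRatio - 1) * (2 * log (∏ i ∈ s, (M i * l i))) := by
    have := one_lt_goldenRatio
    have : 0 ≤ goldenRatio - 1 := by linarith
    positivity
  have h7 : √5 * (s.card * log goldenRatio) ≤ √5 * (2 * log (∏ i ∈ s, M i)) := by linarith
  have h8 := le_of_mul_le_mul_left h7 (by positivity)
  have hMp : 0 < ∏ i ∈ s, M i := prod_pos hM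
  have h9 : log (goldenRatio ^ s.card) ≤ log ((∏ i ∈ s, M i) ^ 2) := by
    rw [log_pow, log_pow]
    push_cast
    exact h8
  exact (log_le_log_iff (pow_pos goldenRatio_pos _) (by positivity)).1 h9

end Pool.Agent.K3h59.LD
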