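import Pool.Agent.K3h59.LD.Decomp

set_option autoImplicit false

/-!
# The reduction of Lehmer's problem to indecomposable polynomials
-/

namespace Pool.Agent.K3h59.LD

open Polynomial

/-- The integer polynomial `f` is decomposable over `ℚ`: it is a composition `g (h (X))` of two
rational polynomials of degree at least two. -/
def Decomposable (f : ℤ[X]) : Prop :=
  ∃ g h : ℚ[X], 2 ≤ g.natDegree ∧ 2 ≤ h.natDegree ∧ f.map (Int.castRingHom ℚ) = g.comp h

section power

theorem mm_pow_sub (d : ℕ) (hd : 1 ≤ d) (a : ℂ) :
    (X ^ d - C a : ℂ[X]).mahlerMeasure = max 1 ‖a‖ := by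
  set p : ℂ[X] := X ^ d - C a with hp
  have hm : p.Monic := monic_X_pow_sub_C a (by omega)
  have hroot : ∀ z ∈ p.roots, ‖z‖ ^ d = ‖a‖ := by
    intro z hz
    have h1 := isRoot_of_mem_roots hz
    rw [IsRoot, hp, eval_sub, eval_pow, eval_X, eval_C, sub_eq_zero] at h1
    rw [← norm_pow, h1]
  have hprod : (p.roots.map fun z => ‖z‖).prod = ‖a‖ := by
    have h1 := (IsAlgClosed.splits p).coeff_zero_eq_prod_roots_of_monic hm
    have h2 : p.coeff 0 = -a := by
      rw [hp, coeff_sub, coeff_X_pow, if_neg (by omega), coeff_C_zero, zero_sub]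
    rw [h2] at h1
    have h3 := congrArg norm h1
    rw [norm_neg, norm_mul, norm_pow, norm_neg, norm_one, one_pow, one_mul] at h3
    rw [h3]
    exact (Multiset.prod_hom p.roots (normHom : ℂ →*₀ ℝ)).trans rfl
  rw [mahlerMeasure_eq_leadingCoeff_mul_prod_roots, hm.leadingCoeff, norm_one, one_mul]
  rcases le_total ‖a‖ 1 with h | h
  · rw [max_eq_left h]
    apply Multiset.prod_eq_one
    intro x hx
    obtain ⟨z, hz, rfl⟩ := Multiset.mem_map.1 hx
    apply max_eq_left
    by_contra hcon
    push Not at hcon
    have := one_lt_pow₀ hcon (show d ≠ 0 by omega)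
    rw [hroot z hz] at this
    linarith
  · rw [max_eq_right h, ← hprod]
    congr 1
    apply Multiset.map_congr rfl
    intro z hz
    apply max_eq_right
    by_contra hcon
    push Not at hcon
    have := pow_lt_one₀ (norm_nonneg z) hcon (show d ≠ 0 by omega)
    rw [hroot z hz] at this
    linarith

theorem mm_comp_pow (G : ℤ[X]) (hG : G.Monic) (d : ℕ) (hd : 1 ≤ d) :
    (cx (G.comp (X ^ d))).mahlerMeasure = (cx G).mahlerMeasure := by
  obtain ⟨β, hβ⟩ := exists_roots G hG
  have h1 : cx (G.comp (X ^ d)) = ∏ j, (X ^ d - C (β j)) := by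
    rw [cx, Polynomial.map_comp]
    change (cx G).comp _ = _
    rw [hβ, Polynomial.prod_comp]
    refine Finset.prod_congr rfl fun j _ => ?_
    rw [sub_comp, X_comp, C_comp, Polynomial.map_pow, map_X]
  have h2 : ∀ P : Fin G.natDegree → ℂ[X],
      (∏ j, P j).mahlerMeasure = ∏ j, (P j).mahlerMeasure := by
    intro P
    have h3 := Polynomial.prod_mahlerMeasure_eq_mahlerMeasure_prod (Finset.univ.val.map P)
    rw [Multiset.map_map] at h3
    exact h3
  rw [h1, hβ, h2, h2]
  refine Finset.prod_congr rfl fun j _ => ?_
  rw [mm_pow_sub d hd, mahlerMeasure_X_sub_C]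

end power

section reduce

theorem mm_neg (f : ℤ[X]) : (cx (-f)).mahlerMeasure = (cx f).mahlerMeasure := by
  have h1 : cx (-f) = C (-1) * cx f := by
    rw [cx, Polynomial.map_neg, cx]
    simp
  rw [h1, mahlerMeasure_mul, mahlerMeasure_const, norm_neg, norm_one, one_mul]

theorem one_le_mm_int (f : ℤ[X]) (hf : f ≠ 0) : 1 ≤ (cx f).mahlerMeasure :=
  one_le_mahlerMeasure_of_ne_zero hf

theorem mm_mul_int (f g : ℤ[X]) :
    (cx (f * g)).mahlerMeasure = (cx f).mahlerMeasure * (cx g).mahlerMeasure := by
  rw [cx, Polynomial.map_mul, mahlerMeasure_mul]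
  rfl

theorem lc_le_mm (f : ℤ[X]) : |(f.leadingCoeff : ℝ)| ≤ (cx f).mahlerMeasure := by
  have h1 := leadingCoeff_le_mahlerMeasure (cx f)
  rw [cx, leadingCoeff_map_of_injective Int.cast_injective, eq_intCast, Complex.norm_intCast] at h1
  exact h1

theorem exists_irreducible (f : ℤ[X]) (hf : f ≠ 0) (hM : 1 < (cx f).mahlerMeasure) :
    ∃ p : ℤ[X], Irreducible p ∧ 1 < (cx p).mahlerMeasure ∧
      (cx p).mahlerMeasure ≤ (cx f).mahlerMeasure := by
  have key : ∀ f : ℤ[X], f ≠ 0 → 1 < (cx f).mahlerMeasure →
      ∃ p : ℤ[X], Irreducible p ∧ 1 < (cx p).mahlerMeasure ∧ p ∣ f := by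
    intro f
    refine WfDvdMonoid.induction_on_irreducible
      (motive := fun f => f ≠ 0 → 1 < (cx f).mahlerMeasure →
        ∃ p : ℤ[X], Irreducible p ∧ 1 < (cx p).mahlerMeasure ∧ p ∣ f) f ?_ ?_ ?_
    · intro h
      exact absurd rfl h
    · intro u hu hu0 hM
      obtain ⟨v, hv⟩ := isUnit_iff_exists_inv.1 hu
      have hv0 : v ≠ 0 := by
        rintro rfl
        rw [mul_zero] at hv
        exact zero_ne_one hv
      have h1 := mm_mul_int u v
      have h2 : (cx (1 : ℤ[X])).mahlerMeasure = 1 := by
        rw [cx, Polynomial.map_one, mahlerMeasure_one]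
      rw [hv, h2] at h1
      have h3 := one_le_mm_int v hv0
      nlinarith
    · intro a i ha hi ih _ hM
      rw [mm_mul_int] at hM
      by_cases h1 : 1 < (cx i).mahlerMeasure
      · exact ⟨i, hi, h1, dvd_mul_right _ _⟩
      · have h2 := one_le_mm_int i hi.ne_zero
        have h3 : (cx i).mahlerMeasure = 1 := le_antisymm (not_lt.1 h1) h2
        rw [h3, one_mul] at hM
        obtain ⟨p, hp1, hp2, hp3⟩ := ih ha hM
        exact ⟨p, hp1, hp2, hp3.mul_left i⟩
  obtain ⟨p, hp1, hp2, q, hq⟩ := key f hf hM
  refine ⟨p, hp1, hp2, ?_⟩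
  have hq0 : q ≠ 0 := by
    rintro rfl
    rw [mul_zero] at hq
    exact hf hq
  rw [hq, mm_mul_int]
  have h1 := one_le_mm_int q hq0
  nlinarith

/-- the irreducible case of the reduction -/
theorem reduce_irr (μ : ℝ) (hμ : ∀ f : ℤ[X], Irreducible f → f.Monic → ¬ Decomposable f →
    1 < (cx f).mahlerMeasure → μ ≤ (cx f).mahlerMeasure) (n : ℕ) :
    ∀ f : ℤ[X], f.natDegree ≤ n → Irreducible f → 1 < (cx f).mahlerMeasure →
      min μ Real.goldenRatio ≤ (cx f).mahlerMeasure := by
  induction n using Nat.strong_induction_on with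
  | h n ih =>
    -- the case of monic polynomials
    have mon : ∀ f : ℤ[X], f.natDegree ≤ n → f.Monic → Irreducible f →
        1 < (cx f).mahlerMeasure → min μ Real.goldenRatio ≤ (cx f).mahlerMeasure := by
      intro f hn hm hf hM
      by_cases hd : Decomposable f
      · obtain ⟨g, h, hg, hh, hc⟩ := hd
        obtain ⟨G, H, mG, mH, H0, dG, dH, hf2, hh2, _⟩ :=
          integral_decomp f hm g h (by omega) (by omega) hc
        rcases decomp_bound f hm g h (by omega) hc (Or.inr ⟨hf, hg⟩) with h1 | h1
        · -- `f = G (X ^ d)`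
          have hHX : H = X ^ h.natDegree := by
            have hinj : Function.Injective (Int.castRingHom ℚ) := Int.cast_injective
            apply map_injective _ hinj
            rw [Polynomial.map_pow, map_X]
            have hh0 : h.leadingCoeff ≠ 0 := by
              intro h0
              rw [leadingCoeff_eq_zero] at h0
              rw [h0] at hh
              simp at hh
            have h3 := add_right_cancel (hh2.symm.trans h1)
            exact mul_left_cancel₀ (C_ne_zero.2 hh0) h3
          rw [hHX] at hf2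
          have hMG : (cx G).mahlerMeasure = (cx f).mahlerMeasure := by
            rw [hf2, mm_comp_pow G mG _ (by omega)]
          have hGdeg : G.natDegree < f.natDegree := by
            rw [hf2, natDegree_comp, natDegree_X_pow]
            nlinarith
          have hGirr : Irreducible G := by
            refine ⟨fun hu => ?_, fun a b hab => ?_⟩
            · have := natDegree_eq_zero_of_isUnit hu
              omega
            · have hmap : ∀ p : ℤ[X], IsUnit (p.comp (X ^ h.natDegree)) → IsUnit p := by
                intro p hp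
                have hdeg := natDegree_eq_zero_of_isUnit hp
                rw [natDegree_comp, natDegree_X_pow] at hdeg
                have hp0 : p.natDegree = 0 := by
                  rcases Nat.mul_eq_zero.1 hdeg with h | h
                  · exact h
                  · omega
                rw [eq_C_of_natDegree_eq_zero hp0] at hp ⊢
                rwa [C_comp] at hp
              have h2 : f = a.comp (X ^ h.natDegree) * b.comp (X ^ h.natDegree) := by
                rw [hf2, hab, mul_comp]
              rcases hf.isUnit_or_isUnit h2 with h3 | h3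
              · exact Or.inl (hmap a h3)
              · exact Or.inr (hmap b h3)
          rw [← hMG]
          exact ih G.natDegree (by omega) G le_rfl hGirr (by rw [hMG]; exact hM)
        · refine (min_le_right _ _).trans ?_
          have h2 : Real.goldenRatio ^ 2 ≤ (cx f).mahlerMeasure ^ 2 :=
            (pow_le_pow_right₀ Real.one_lt_goldenRatio.le hg).trans h1
          exact (pow_le_pow_iff_left₀ Real.goldenRatio_pos.le (by linarith) (by norm_num)).1 h2
      · exact (min_le_left _ _).trans (hμ f hf hm hd hM)
    intro f hn hf hM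
    have hlc0 : f.leadingCoeff ≠ 0 := leadingCoeff_ne_zero.2 hf.ne_zero
    by_cases h1 : |f.leadingCoeff| = 1
    · rcases (abs_eq (by norm_num : (0 : ℤ) ≤ 1)).1 h1 with h2 | h2
      · exact mon f hn h2 hf hM
      · rw [← mm_neg f]
        refine mon (-f) (by rwa [natDegree_neg]) ?_ ?_ (by rwa [mm_neg])
        · rw [Monic, leadingCoeff_neg, h2]
          norm_num
        · exact (Associated.irreducible_iff (Associated.neg_left (Associated.refl f))).2 hf
    · have h2 := Int.one_le_abs hlc0
      have h3 : 2 ≤ |f.leadingCoeff| := by omega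
      have h4 : (2 : ℝ) ≤ |(f.leadingCoeff : ℝ)| := by exact_mod_cast h3
      have h5 := lc_le_mm f
      have h6 := Real.goldenRatio_lt_two
      exact (min_le_right _ _).trans (by linarith)

/-- Lehmer's problem for all polynomials follows from its case of monic irreducible indecomposable
polynomials -/
theorem reduce (μ : ℝ) (hμ : ∀ f : ℤ[X], Irreducible f → f.Monic → ¬ Decomposable f →
    1 < (cx f).mahlerMeasure → μ ≤ (cx f).mahlerMeasure) (f : ℤ[X])
    (hM : 1 < (cx f).mahlerMeasure) : min μ Real.goldenRatio ≤ (cx f).mahlerMeasure := by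
  have hf : f ≠ 0 := by
    rintro rfl
    rw [cx, Polynomial.map_zero, mahlerMeasure_zero] at hM
    linarith
  obtain ⟨p, hp1, hp2, hp3⟩ := exists_irreducible f hf hM
  exact (reduce_irr μ hμ p.natDegree p le_rfl hp1 hp2).trans hp3

end reduce

end Pool.Agent.K3h59.LD
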